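import Mathlib

/-!
# Similar tetrahedra in the integer grid
-/

set_option autoImplicit false

open Finset

namespace Pool.Agent.Q291.TET

/-- Euclidean 3-space. -/
abbrev E := EuclideanSpace ℝ (Fin 3)

/-- Four points which do not lie in a plane `{x | ⟨u, x⟩ = c}`. -/
def IsTet (T : Finset E) : Prop :=
  T.card = 4 ∧ ∀ u : E, u ≠ 0 → ∀ c : ℝ, ∃ x ∈ T, inner ℝ u x ≠ c

/-- `X` is the image of `T` under a similarity `φ` of `ℝ³` (all distances are multiplied by the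
same number `r > 0`). -/
def Similar (T X : Finset E) : Prop :=
  ∃ (r : ℝ) (φ : E → E), 0 < r ∧ (∀ x y, dist (φ x) (φ y) = r * dist x y) ∧
    (X : Set E) = φ '' (T : Set E)

open Classical in
/-- The number of 4-element subsets of `P` which are tetrahedra similar to `T`. -/
noncomputable def num (P T : Finset E) : ℕ :=
  ((P.powersetCard 4).filter (fun X => IsTet X ∧ Similar T X)).card

/-- The maximum of `num P T` over all sets `P` of `n` points and all tetrahedra `T`. -/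
noncomputable def f (n : ℕ) : ℕ :=
  sSup {k | ∃ P T : Finset E, P.card = n ∧ IsTet T ∧ k = num P T}

theorem num_le (P T : Finset E) : num P T ≤ P.card.choose 4 := by
  classical
  rw [num, ← card_powersetCard]
  exact card_le_card (filter_subset _ _)

theorem num_le_f {n : ℕ} {P T : Finset E} (hP : P.card = n) (hT : IsTet T) : num P T ≤ f n := by
  refine le_csSup ⟨n.choose 4, ?_⟩ ⟨P, T, hP, hT, rfl⟩
  rintro k ⟨P', T', hP', -, rfl⟩
  rw [← hP']
  exact num_le P' T'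

/-- The parameters: a translation and a quaternion. -/
structure Par where
  a : ℤ
  b : ℤ
  c : ℤ
  d : ℤ
  t0 : ℤ
  t1 : ℤ
  t2 : ℤ
deriving DecidableEq

/-- The similarity `x ↦ q x q̄ + t` in coordinates. -/
noncomputable def sim (p : Par) (x : E) : E :=
  !₂[((p.a : ℝ) ^ 2 + p.b ^ 2 - p.c ^ 2 - p.d ^ 2) * x 0 + 2 * (p.b * p.c - p.a * p.d) * x 1 +
      2 * (p.b * p.d + p.a * p.c) * x 2 + p.t0,
    2 * ((p.b : ℝ) * p.c + p.a * p.d) * x 0 + (p.a ^ 2 - p.b ^ 2 + p.c ^ 2 - p.d ^ 2) * x 1 +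
      2 * (p.c * p.d - p.a * p.b) * x 2 + p.t1,
    2 * ((p.b : ℝ) * p.d - p.a * p.c) * x 0 + 2 * (p.c * p.d + p.a * p.b) * x 1 +
      (p.a ^ 2 - p.b ^ 2 - p.c ^ 2 + p.d ^ 2) * x 2 + p.t2]

theorem sim_zero (p : Par) (x : E) : sim p x 0 =
    ((p.a : ℝ) ^ 2 + p.b ^ 2 - p.c ^ 2 - p.d ^ 2) * x 0 + 2 * (p.b * p.c - p.a * p.d) * x 1 +
      2 * (p.b * p.d + p.a * p.c) * x 2 + p.t0 := by
  simp [sim]

theorem sim_one (p : Par) (x : E) : sim p x 1 =
    2 * ((p.b : ℝ) * p.c + p.a * p.d) * x 0 + (p.a ^ 2 - p.b ^ 2 + p.c ^ 2 - p.d ^ 2) * x 1 +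
      2 * (p.c * p.d - p.a * p.b) * x 2 + p.t1 := by
  simp [sim]

theorem sim_two (p : Par) (x : E) : sim p x 2 =
    2 * ((p.b : ℝ) * p.d - p.a * p.c) * x 0 + 2 * (p.c * p.d + p.a * p.b) * x 1 +
      (p.a ^ 2 - p.b ^ 2 - p.c ^ 2 + p.d ^ 2) * x 2 + p.t2 := by
  simp [sim]

/-- The scaling factor. -/
def scale (p : Par) : ℝ := (p.a : ℝ) ^ 2 + p.b ^ 2 + p.c ^ 2 + p.d ^ 2

theorem dist_sim (p : Par) (x y : E) : dist (sim p x) (sim p y) = scale p * dist x y := by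
  have h0 : 0 ≤ scale p := by unfold scale; positivity
  rw [EuclideanSpace.dist_eq, EuclideanSpace.dist_eq, Fin.sum_univ_three, Fin.sum_univ_three]
  simp only [Real.dist_eq, sq_abs, sim_zero, sim_one, sim_two]
  rw [← Real.sqrt_sq h0, ← Real.sqrt_mul (sq_nonneg _)]
  congr 1
  unfold scale
  ring

/-- The transposed linear map. -/
noncomputable def tr (p : Par) (u : E) : E :=
  !₂[((p.a : ℝ) ^ 2 + p.b ^ 2 - p.c ^ 2 - p.d ^ 2) * u 0 + 2 * (p.b * p.c + p.a * p.d) * u 1 +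
      2 * (p.b * p.d - p.a * p.c) * u 2,
    2 * ((p.b : ℝ) * p.c - p.a * p.d) * u 0 + (p.a ^ 2 - p.b ^ 2 + p.c ^ 2 - p.d ^ 2) * u 1 +
      2 * (p.c * p.d + p.a * p.b) * u 2,
    2 * ((p.b : ℝ) * p.d + p.a * p.c) * u 0 + 2 * (p.c * p.d - p.a * p.b) * u 1 +
      (p.a ^ 2 - p.b ^ 2 - p.c ^ 2 + p.d ^ 2) * u 2]

theorem inner3 (u x : E) : inner ℝ u x = u 0 * x 0 + u 1 * x 1 + u 2 * x 2 := by
  rw [PiLp.inner_apply, Fin.sum_univ_three]
  simp only [RCLike.inner_apply, conj_trivial]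
  ring

theorem inner_sim (p : Par) (u x : E) :
    inner ℝ u (sim p x) = inner ℝ (tr p u) x + (u 0 * p.t0 + u 1 * p.t1 + u 2 * p.t2) := by
  rw [inner3, inner3, sim_zero, sim_one, sim_two]
  simp only [tr]
  simp
  ring

theorem eq_zero_iff3 (u : E) : u = 0 ↔ u 0 ^ 2 + u 1 ^ 2 + u 2 ^ 2 = 0 := by
  constructor
  · rintro rfl; simp
  · intro h
    have h0 : u 0 = 0 := by nlinarith [sq_nonneg (u 0), sq_nonneg (u 1), sq_nonneg (u 2)]
    have h1 : u 1 = 0 := by nlinarith [sq_nonneg (u 0), sq_nonneg (u 1), sq_nonneg (u 2)]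
    have h2 : u 2 = 0 := by nlinarith [sq_nonneg (u 0), sq_nonneg (u 1), sq_nonneg (u 2)]
    ext i
    fin_cases i
    · exact h0
    · exact h1
    · exact h2

theorem tr_ne_zero {p : Par} (hp : 0 < scale p) {u : E} (hu : u ≠ 0) : tr p u ≠ 0 := by
  intro h
  rw [eq_zero_iff3] at h
  apply hu
  rw [eq_zero_iff3]
  have h1 : (tr p u) 0 ^ 2 + (tr p u) 1 ^ 2 + (tr p u) 2 ^ 2 =
      scale p ^ 2 * (u 0 ^ 2 + u 1 ^ 2 + u 2 ^ 2) := by
    simp only [tr, scale]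
    simp
    ring
  rw [h1] at h
  rcases mul_eq_zero.1 h with h2 | h2
  · have := pow_pos hp 2
    linarith
  · exact h2

theorem sim_injective {p : Par} (hp : 0 < scale p) : Function.Injective (sim p) := by
  intro x y hxy
  have h := dist_sim p x y
  rw [hxy, dist_self] at h
  have h2 : dist x y = 0 := by
    rcases mul_eq_zero.1 h.symm with h3 | h3
    · linarith
    · exact h3
  exact dist_eq_zero.1 h2

open Classical in
theorem isTet_image {p : Par} (hp : 0 < scale p) {T : Finset E} (hT : IsTet T) :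
    IsTet (T.image (sim p)) := by
  refine ⟨?_, ?_⟩
  · rw [card_image_of_injective _ (sim_injective hp)]
    exact hT.1
  · intro u hu c
    obtain ⟨x, hx, hx2⟩ := hT.2 (tr p u) (tr_ne_zero hp hu)
      (c - (u 0 * p.t0 + u 1 * p.t1 + u 2 * p.t2))
    refine ⟨sim p x, mem_image_of_mem _ hx, ?_⟩
    rw [inner_sim]
    intro h
    apply hx2
    linarith

/-- A linear equation satisfied on a tetrahedron is trivial. -/
theorem lin_trivial {T : Finset E} (hT : IsTet T) {α β γ δ : ℝ}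
    (h : ∀ x ∈ T, α * x 0 + β * x 1 + γ * x 2 + δ = 0) : α = 0 ∧ β = 0 ∧ γ = 0 ∧ δ = 0 := by
  by_cases hu : (!₂[α, β, γ] : E) = 0
  · have h0 : α = 0 := by simpa using congrArg (fun v : E => v 0) hu
    have h1 : β = 0 := by simpa using congrArg (fun v : E => v 1) hu
    have h2 : γ = 0 := by simpa using congrArg (fun v : E => v 2) hu
    refine ⟨h0, h1, h2, ?_⟩
    have hne : T.Nonempty := by
      rw [← card_pos, hT.1]; norm_num
    obtain ⟨x, hx⟩ := hne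
    have := h x hx
    rw [h0, h1, h2] at this
    linarith
  · exfalso
    obtain ⟨x, hx, hx2⟩ := hT.2 _ hu (-δ)
    apply hx2
    have := h x hx
    rw [inner3]
    simp
    linarith

/-- The similarity determines its parameters (if the quaternion has positive entries). -/
theorem par_eq {T : Finset E} (hT : IsTet T) {p p' : Par}
    (hp : 0 < p.a ∧ 0 < p.b ∧ 0 < p.c ∧ 0 < p.d) (hp' : 0 < p'.a ∧ 0 < p'.b ∧ 0 < p'.c ∧ 0 < p'.d)
    (h : ∀ x ∈ T, sim p x = sim p' x) : p = p' := by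
  have e0 := lin_trivial hT
    (α := ((p.a : ℝ) ^ 2 + p.b ^ 2 - p.c ^ 2 - p.d ^ 2) -
      ((p'.a : ℝ) ^ 2 + p'.b ^ 2 - p'.c ^ 2 - p'.d ^ 2))
    (β := 2 * (p.b * p.c - p.a * p.d) - 2 * (p'.b * p'.c - p'.a * p'.d))
    (γ := 2 * (p.b * p.d + p.a * p.c) - 2 * (p'.b * p'.d + p'.a * p'.c))
    (δ := (p.t0 : ℝ) - p'.t0) (by
      intro x hx
      have := congrArg (fun v : E => v 0) (h x hx)
      simp only [sim_zero] at this
      linarith)
  have e1 := lin_trivial hT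
    (α := 2 * ((p.b : ℝ) * p.c + p.a * p.d) - 2 * ((p'.b : ℝ) * p'.c + p'.a * p'.d))
    (β := ((p.a : ℝ) ^ 2 - p.b ^ 2 + p.c ^ 2 - p.d ^ 2) -
      ((p'.a : ℝ) ^ 2 - p'.b ^ 2 + p'.c ^ 2 - p'.d ^ 2))
    (γ := 2 * ((p.c : ℝ) * p.d - p.a * p.b) - 2 * (p'.c * p'.d - p'.a * p'.b))
    (δ := (p.t1 : ℝ) - p'.t1) (by
      intro x hx
      have := congrArg (fun v : E => v 1) (h x hx)
      simp only [sim_one] at this
      linarith)
  have e2 := lin_trivial hT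
    (α := 2 * ((p.b : ℝ) * p.d - p.a * p.c) - 2 * ((p'.b : ℝ) * p'.d - p'.a * p'.c))
    (β := 2 * ((p.c : ℝ) * p.d + p.a * p.b) - 2 * (p'.c * p'.d + p'.a * p'.b))
    (γ := ((p.a : ℝ) ^ 2 - p.b ^ 2 - p.c ^ 2 + p.d ^ 2) -
      ((p'.a : ℝ) ^ 2 - p'.b ^ 2 - p'.c ^ 2 + p'.d ^ 2))
    (δ := (p.t2 : ℝ) - p'.t2) (by
      intro x hx
      have := congrArg (fun v : E => v 2) (h x hx)
      simp only [sim_two] at this
      linarith)
  obtain ⟨a, b, c, d, t0, t1, t2⟩ := p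
  obtain ⟨a', b', c', d', t0', t1', t2'⟩ := p'
  simp only at e0 e1 e2 hp hp'
  have k1 : a * b = a' * b' := by
    have : (a : ℝ) * b = a' * b' := by linarith [e1.2.2.1, e2.2.1]
    exact_mod_cast this
  have k2 : a * c = a' * c' := by
    have : (a : ℝ) * c = a' * c' := by linarith [e0.2.2.1, e2.1]
    exact_mod_cast this
  have k3 : a * d = a' * d' := by
    have : (a : ℝ) * d = a' * d' := by linarith [e0.2.1, e1.1]
    exact_mod_cast this
  have k4 : b * c = b' * c' := by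
    have : (b : ℝ) * c = b' * c' := by linarith [e0.2.1, e1.1]
    exact_mod_cast this
  have s0 : t0 = t0' := by
    have : (t0 : ℝ) = t0' := by linarith [e0.2.2.2]
    exact_mod_cast this
  have s1 : t1 = t1' := by
    have : (t1 : ℝ) = t1' := by linarith [e1.2.2.2]
    exact_mod_cast this
  have s2 : t2 = t2' := by
    have : (t2 : ℝ) = t2' := by linarith [e2.2.2.2]
    exact_mod_cast this
  have k5 : a ^ 2 = a' ^ 2 := by
    have h1 : a ^ 2 * (b * c) = a' ^ 2 * (b * c) := by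
      calc a ^ 2 * (b * c) = (a * b) * (a * c) := by ring
        _ = (a' * b') * (a' * c') := by rw [k1, k2]
        _ = a' ^ 2 * (b' * c') := by ring
        _ = a' ^ 2 * (b * c) := by rw [k4]
    exact mul_right_cancel₀ (mul_pos hp.2.1 hp.2.2.1).ne' h1
  have ka : a = a' := by
    have h1 : (a - a') * (a + a') = 0 := by ring_nf; linarith
    rcases mul_eq_zero.1 h1 with h2 | h2
    · linarith
    · linarith [hp.1, hp'.1]
  subst ka
  have kb : b = b' := mul_left_cancel₀ hp.1.ne' k1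
  have kc : c = c' := mul_left_cancel₀ hp.1.ne' k2
  have kd : d = d' := mul_left_cancel₀ hp.1.ne' k3
  rw [kb, kc, kd, s0, s1, s2]

/-- Integer points. -/
noncomputable def pt (z : ℤ × ℤ × ℤ) : E := !₂[(z.1 : ℝ), z.2.1, z.2.2]

theorem pt_inj : Function.Injective pt := by
  intro z w h
  have h0 := congrArg (fun v : E => v 0) h
  have h1 := congrArg (fun v : E => v 1) h
  have h2 := congrArg (fun v : E => v 2) h
  simp [pt] at h0 h1 h2
  exact Prod.ext h0 (Prod.ext h1 h2)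

open Classical in
/-- The grid. -/
noncomputable def grid (M : ℕ) : Finset E :=
  ((Icc (-(M : ℤ)) M) ×ˢ ((Icc (-(M : ℤ)) M) ×ˢ (Icc (-(M : ℤ)) M))).image pt

theorem card_grid (M : ℕ) : (grid M).card = (2 * M + 1) ^ 3 := by
  classical
  rw [grid, card_image_of_injective _ pt_inj, card_product, card_product, Int.card_Icc]
  have : ((M : ℤ) + 1 - -(M : ℤ)).toNat = 2 * M + 1 := by omega
  rw [this]; ring

/-- The parameters used. -/
noncomputable def pars (K : ℕ) : Finset Par :=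
  ((Icc (1 : ℤ) K ×ˢ (Icc (1 : ℤ) K ×ˢ (Icc (1 : ℤ) K ×ˢ Icc (1 : ℤ) K))) ×ˢ
    (Icc (1 : ℤ) (K ^ 2 : ℕ) ×ˢ (Icc (1 : ℤ) (K ^ 2 : ℕ) ×ˢ Icc (1 : ℤ) (K ^ 2 : ℕ)))).image
    (fun z => ⟨z.1.1, z.1.2.1, z.1.2.2.1, z.1.2.2.2, z.2.1, z.2.2.1, z.2.2.2⟩)

theorem card_pars (K : ℕ) : (pars K).card = K ^ 10 := by
  rw [pars, card_image_of_injective]
  · simp only [card_product, Int.card_Icc]
    have h1 : ((K : ℤ) + 1 - 1).toNat = K := by omega
    have h2 : (((K ^ 2 : ℕ) : ℤ) + 1 - 1).toNat = K ^ 2 := by omega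
    rw [h1, h2]; ring
  · rintro ⟨⟨a, b, c, d⟩, ⟨x, y, z⟩⟩ ⟨⟨a', b', c', d'⟩, ⟨x', y', z'⟩⟩ h
    simp only [Par.mk.injEq] at h
    obtain ⟨rfl, rfl, rfl, rfl, rfl, rfl, rfl⟩ := h
    rfl

theorem mem_pars {K : ℕ} {p : Par} (h : p ∈ pars K) :
    (1 ≤ p.a ∧ p.a ≤ K) ∧ (1 ≤ p.b ∧ p.b ≤ K) ∧ (1 ≤ p.c ∧ p.c ≤ K) ∧ (1 ≤ p.d ∧ p.d ≤ K) ∧
      (1 ≤ p.t0 ∧ p.t0 ≤ K ^ 2) ∧ (1 ≤ p.t1 ∧ p.t1 ≤ K ^ 2) ∧ (1 ≤ p.t2 ∧ p.t2 ≤ K ^ 2) := by
  rw [pars, mem_image] at h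
  obtain ⟨z, hz, rfl⟩ := h
  simp only [mem_product, mem_Icc] at hz
  push_cast at hz
  exact ⟨hz.1.1, hz.1.2.1, hz.1.2.2.1, hz.1.2.2.2, hz.2.1, hz.2.2.1, hz.2.2.2⟩

end Pool.Agent.Q291.TET
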