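import Pool.Agent.Q291.TET.A

/-!
# Counting similar tetrahedra in the integer grid
-/

set_option autoImplicit false

open Finset Filter

namespace Pool.Agent.Q291.TET

/-- Coordinates of images. -/
theorem abs_le_aux {K H a b c d : ℤ} (ha : 1 ≤ a ∧ a ≤ K) (hb : 1 ≤ b ∧ b ≤ K)
    (hc : 1 ≤ c ∧ c ≤ K) (hd : 1 ≤ d ∧ d ≤ K) :
    |a ^ 2 + b ^ 2 - c ^ 2 - d ^ 2| ≤ 2 * K ^ 2 ∧ |2 * (b * c - a * d)| ≤ 2 * K ^ 2 ∧
      |2 * (b * d + a * c)| ≤ 4 * K ^ 2 := by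
  have sq1 : ∀ x : ℤ, 1 ≤ x ∧ x ≤ K → 0 ≤ x ^ 2 ∧ x ^ 2 ≤ K ^ 2 := by
    intro x hx
    exact ⟨sq_nonneg x, pow_le_pow_left₀ (by linarith [hx.1]) hx.2 2⟩
  have pr : ∀ x y : ℤ, 1 ≤ x ∧ x ≤ K → 1 ≤ y ∧ y ≤ K → 0 ≤ x * y ∧ x * y ≤ K ^ 2 := by
    intro x y hx hy
    refine ⟨mul_nonneg (by linarith [hx.1]) (by linarith [hy.1]), ?_⟩
    rw [sq]
    exact mul_le_mul hx.2 hy.2 (by linarith [hy.1]) (by linarith [hx.1, hx.2])
  have a2 := sq1 a ha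
  have b2 := sq1 b hb
  have c2 := sq1 c hc
  have d2 := sq1 d hd
  have bc := pr b c hb hc
  have ad := pr a d ha hd
  have bd := pr b d hb hd
  have ac := pr a c ha hc
  refine ⟨?_, ?_, ?_⟩
  · rw [abs_le]; constructor <;> linarith
  · rw [abs_le]; constructor <;> linarith
  · rw [abs_le]; constructor <;> linarith

theorem bound3 {A B C x y z t L H : ℤ} (hA : |A| ≤ 4 * L) (hB : |B| ≤ 4 * L) (hC : |C| ≤ 4 * L)
    (hx : |x| ≤ H) (hy : |y| ≤ H) (hz : |z| ≤ H) (ht : |t| ≤ L) (hH : 1 ≤ H) :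
    |A * x + B * y + C * z + t| ≤ 13 * H * L := by
  have hL : 0 ≤ L := (abs_nonneg t).trans ht
  have h1 : |A * x| ≤ 4 * L * H := by
    rw [abs_mul]; exact mul_le_mul hA hx (abs_nonneg _) (by linarith)
  have h2 : |B * y| ≤ 4 * L * H := by
    rw [abs_mul]; exact mul_le_mul hB hy (abs_nonneg _) (by linarith)
  have h3 : |C * z| ≤ 4 * L * H := by
    rw [abs_mul]; exact mul_le_mul hC hz (abs_nonneg _) (by linarith)
  have h4 : L ≤ H * L := by nlinarith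
  have h5 := abs_add_le (A * x + B * y + C * z) t
  have h6 := abs_add_le (A * x + B * y) (C * z)
  have h7 := abs_add_le (A * x) (B * y)
  nlinarith

/-- Integer coordinates. -/
def IsInt (T : Finset E) : Prop := ∀ x ∈ T, ∀ i, ∃ z : ℤ, x i = z

theorem sim_mem_grid {K H : ℕ} (hH : 1 ≤ H) {p : Par} (hp : p ∈ pars K) {x : E}
    (hx : ∃ z : ℤ × ℤ × ℤ, x = pt z ∧ |z.1| ≤ H ∧ |z.2.1| ≤ H ∧ |z.2.2| ≤ H) :
    sim p x ∈ grid (13 * H * K ^ 2) := by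
  classical
  obtain ⟨⟨x0, x1, x2⟩, rfl, h0, h1, h2⟩ := hx
  obtain ⟨ha, hb, hc, hd, ht0, ht1, ht2⟩ := mem_pars hp
  simp only at h0 h1 h2
  have hK : (0 : ℤ) ≤ (K : ℤ) ^ 2 := sq_nonneg _
  have q1 := abs_le_aux (H := H) ha hb hc hd
  -- row 0
  have r0 : |(p.a ^ 2 + p.b ^ 2 - p.c ^ 2 - p.d ^ 2) * x0 + (2 * (p.b * p.c - p.a * p.d)) * x1 +
      (2 * (p.b * p.d + p.a * p.c)) * x2 + p.t0| ≤ 13 * H * (K : ℤ) ^ 2 := by
    refine bound3 (by linarith [q1.1]) (by linarith [q1.2.1]) q1.2.2 h0 h1 h2 ?_ (by exact_mod_cast hH)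
    rw [abs_le]; constructor <;> linarith
  -- row 1
  have q2 := abs_le_aux (H := H) ha hc hb hd
  have q2' := abs_le_aux (H := H) ha hd hc hb
  have q3 := abs_le_aux (H := H) ha hb hd hc
  have r1 : |(2 * (p.b * p.c + p.a * p.d)) * x0 + (p.a ^ 2 - p.b ^ 2 + p.c ^ 2 - p.d ^ 2) * x1 +
      (2 * (p.c * p.d - p.a * p.b)) * x2 + p.t1| ≤ 13 * H * (K : ℤ) ^ 2 := by
    refine bound3 ?_ ?_ ?_ h0 h1 h2 ?_ (by exact_mod_cast hH)
    · have := q3.2.2; rwa [show 2 * (p.b * p.c + p.a * p.d) = 2 * (p.b * p.c + p.a * p.d) from rfl]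
    · have := q2.1
      rw [show p.a ^ 2 - p.b ^ 2 + p.c ^ 2 - p.d ^ 2 = p.a ^ 2 + p.c ^ 2 - p.b ^ 2 - p.d ^ 2 by ring]
      linarith
    · have := q2'.2.1
      rw [show 2 * (p.c * p.d - p.a * p.b) = 2 * (p.d * p.c - p.a * p.b) by ring]
      linarith
    · rw [abs_le]; constructor <;> linarith
  have r2 : |(2 * (p.b * p.d - p.a * p.c)) * x0 + (2 * (p.c * p.d + p.a * p.b)) * x1 +
      (p.a ^ 2 - p.b ^ 2 - p.c ^ 2 + p.d ^ 2) * x2 + p.t2| ≤ 13 * H * (K : ℤ) ^ 2 := by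
    refine bound3 ?_ ?_ ?_ h0 h1 h2 ?_ (by exact_mod_cast hH)
    · have := q3.2.1; linarith
    · have := q2.2.2
      rw [show 2 * (p.c * p.d + p.a * p.b) = 2 * (p.c * p.d + p.a * p.b) from rfl]
      exact this
    · have := q2'.1
      rw [show p.a ^ 2 - p.b ^ 2 - p.c ^ 2 + p.d ^ 2 = p.a ^ 2 + p.d ^ 2 - p.c ^ 2 - p.b ^ 2 by ring]
      linarith
    · rw [abs_le]; constructor <;> linarith
  rw [grid, mem_image]
  refine ⟨((p.a ^ 2 + p.b ^ 2 - p.c ^ 2 - p.d ^ 2) * x0 + (2 * (p.b * p.c - p.a * p.d)) * x1 +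
      (2 * (p.b * p.d + p.a * p.c)) * x2 + p.t0,
    (2 * (p.b * p.c + p.a * p.d)) * x0 + (p.a ^ 2 - p.b ^ 2 + p.c ^ 2 - p.d ^ 2) * x1 +
      (2 * (p.c * p.d - p.a * p.b)) * x2 + p.t1,
    (2 * (p.b * p.d - p.a * p.c)) * x0 + (2 * (p.c * p.d + p.a * p.b)) * x1 +
      (p.a ^ 2 - p.b ^ 2 - p.c ^ 2 + p.d ^ 2) * x2 + p.t2), ?_, ?_⟩
  · rw [abs_le] at r0 r1 r2
    simp only [mem_product, mem_Icc]
    push_cast
    refine ⟨?_, ?_, ?_⟩
    · constructor <;> linarith [r0.1, r0.2]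
    · constructor <;> linarith [r1.1, r1.2]
    · constructor <;> linarith [r2.1, r2.2]
  · ext i
    fin_cases i
    · simp only [Fin.zero_eta]
      rw [sim_zero]
      simp [pt]
    · simp only [Fin.mk_one]
      rw [sim_one]
      simp [pt]
    · simp only [Fin.reduceFinMk]
      rw [sim_two]
      simp [pt]

theorem exists_H {T : Finset E} (hT : IsInt T) :
    ∃ H : ℕ, 1 ≤ H ∧ ∀ x ∈ T, ∃ z : ℤ × ℤ × ℤ, x = pt z ∧ |z.1| ≤ H ∧ |z.2.1| ≤ H ∧ |z.2.2| ≤ H := by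
  classical
  have h : ∀ x : T, ∃ z : ℤ × ℤ × ℤ, (x : E) = pt z := by
    intro x
    obtain ⟨z0, h0⟩ := hT x x.2 0
    obtain ⟨z1, h1⟩ := hT x x.2 1
    obtain ⟨z2, h2⟩ := hT x x.2 2
    refine ⟨(z0, z1, z2), ?_⟩
    ext i
    fin_cases i
    · simpa [pt] using h0
    · simpa [pt] using h1
    · simpa [pt] using h2
  choose z hz using h
  obtain ⟨M, hM⟩ : ∃ M : ℕ, M = ∑ x : T, ((z x).1.natAbs + (z x).2.1.natAbs + (z x).2.2.natAbs) :=
    ⟨_, rfl⟩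
  refine ⟨1 + M, by omega, ?_⟩
  intro x hx
  refine ⟨z ⟨x, hx⟩, hz ⟨x, hx⟩, ?_⟩
  have h1 : (z ⟨x, hx⟩).1.natAbs + (z ⟨x, hx⟩).2.1.natAbs + (z ⟨x, hx⟩).2.2.natAbs ≤ M := by
    rw [hM]
    exact single_le_sum (f := fun x : T => (z x).1.natAbs + (z x).2.1.natAbs + (z x).2.2.natAbs)
      (fun _ _ => Nat.zero_le _) (mem_univ (⟨x, hx⟩ : T))
  refine ⟨?_, ?_, ?_⟩ <;> rw [Int.abs_eq_natAbs] <;> omega

/-- **Many similar tetrahedra in the grid.** -/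
theorem many {T : Finset E} (hT : IsTet T) {H : ℕ} (hH : 1 ≤ H)
    (hz : ∀ x ∈ T, ∃ z : ℤ × ℤ × ℤ, x = pt z ∧ |z.1| ≤ H ∧ |z.2.1| ≤ H ∧ |z.2.2| ≤ H) (K : ℕ)
    {P : Finset E} (hP : grid (13 * H * K ^ 2) ⊆ P) : K ^ 10 ≤ 256 * num P T := by
  classical
  have hpos : ∀ p ∈ pars K, 0 < scale p := by
    intro p hp
    obtain ⟨ha, hb, hc, hd, -⟩ := mem_pars hp
    have h1 : (0 : ℝ) < p.a := by exact_mod_cast (by linarith [ha.1] : (0 : ℤ) < p.a)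
    unfold scale
    positivity
  have himg : (pars K).image (fun p => T.image (sim p)) ⊆
      (P.powersetCard 4).filter (fun X => IsTet X ∧ Similar T X) := by
    intro X hX
    rw [mem_image] at hX
    obtain ⟨p, hp, rfl⟩ := hX
    rw [mem_filter, mem_powersetCard]
    have htet := isTet_image (hpos p hp) hT
    refine ⟨⟨?_, htet.1⟩, htet, scale p, sim p, hpos p hp, dist_sim p, by simp⟩
    intro y hy
    rw [mem_image] at hy
    obtain ⟨x, hx, rfl⟩ := hy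
    exact hP (sim_mem_grid hH hp (hz x hx))
  have hfib : (pars K).card ≤ 256 * ((pars K).image (fun p => T.image (sim p))).card := by
    apply card_le_mul_card_image
    intro X hX
    rw [mem_image] at hX
    obtain ⟨p0, hp0, rfl⟩ := hX
    -- each parameter in the fibre gives a map T → T
    have hσ : ∀ p : Par, T.image (sim p) = T.image (sim p0) →
        ∃ σ : T → T, ∀ x : T, sim p x = sim p0 (σ x) := by
      intro p hp
      have : ∀ x : T, ∃ y : T, sim p x = sim p0 y := by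
        intro x
        have h1 : sim p x ∈ T.image (sim p0) := by
          rw [← hp]; exact mem_image_of_mem _ x.2
        rw [mem_image] at h1
        obtain ⟨y, hy, h2⟩ := h1
        exact ⟨⟨y, hy⟩, h2.symm⟩
      choose σ hσ using this
      exact ⟨σ, hσ⟩
    haveI : Nonempty (T → T) := ⟨id⟩
    choose! σ hσ using hσ
    have hcard : (univ : Finset (T → T)).card = 256 := by
      rw [card_univ, Fintype.card_fun, Fintype.card_coe, hT.1]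
      norm_num
    rw [← hcard]
    refine card_le_card_of_injOn σ (fun _ _ => mem_coe.2 (mem_univ _)) ?_
    intro p hp p' hp' hpp
    rw [mem_coe, mem_filter] at hp hp'
    have m1 := mem_pars hp.1
    have m2 := mem_pars hp'.1
    refine par_eq hT ⟨by linarith [m1.1.1], by linarith [m1.2.1.1], by linarith [m1.2.2.1.1],
      by linarith [m1.2.2.2.1.1]⟩ ⟨by linarith [m2.1.1], by linarith [m2.2.1.1],
      by linarith [m2.2.2.1.1], by linarith [m2.2.2.2.1.1]⟩ ?_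
    intro x hx
    rw [hσ p hp.2 ⟨x, hx⟩, hσ p' hp'.2 ⟨x, hx⟩, hpp]
  rw [card_pars] at hfib
  exact hfib.trans (Nat.mul_le_mul_left _ (card_le_card himg))

/-- The lower bound `c n^{5/3}` for each tetrahedron with integer vertices. -/
theorem lower {T : Finset E} (hT : IsTet T) (hI : IsInt T) :
    ∃ c : ℝ, 0 < c ∧ ∀ᶠ n : ℕ in atTop, ∃ P : Finset E, P.card = n ∧
      c * (n : ℝ) ^ (5 / 3 : ℝ) ≤ num P T := by
  classical
  obtain ⟨H, hH, hz⟩ := exists_H hI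
  -- n = (27 H K^2)^3 suffices
  have hH0 : (0 : ℝ) < 27 * H := by positivity
  refine ⟨1 / (256 * (1024 * (27 * H) ^ 5)), by positivity, ?_⟩
  have hlim : Tendsto (fun n : ℕ => ((n : ℝ) ^ (1 / 3 : ℝ) / (27 * H)) ^ (1 / 2 : ℝ)) atTop atTop :=
    (tendsto_rpow_atTop (by norm_num)).comp
      (((tendsto_rpow_atTop (by norm_num)).comp tendsto_natCast_atTop_atTop).atTop_div_const hH0)
  filter_upwards [hlim.eventually_ge_atTop 1] with n hn
  set y := ((n : ℝ) ^ (1 / 3 : ℝ) / (27 * H)) ^ (1 / 2 : ℝ) with hy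
  have hy0 : 0 ≤ y := by linarith
  have hn0 : (0 : ℝ) ≤ n := Nat.cast_nonneg n
  have hbase : 0 ≤ (n : ℝ) ^ (1 / 3 : ℝ) / (27 * H) := by positivity
  have hy2 : y ^ 2 = (n : ℝ) ^ (1 / 3 : ℝ) / (27 * H) := by
    rw [hy, ← Real.rpow_natCast, ← Real.rpow_mul hbase]
    norm_num
  have hy3 : 27 * H * y ^ 2 = (n : ℝ) ^ (1 / 3 : ℝ) := by
    rw [hy2]; field_simp
  obtain ⟨K, hK⟩ : ∃ K : ℕ, K = ⌊y⌋₊ := ⟨_, rfl⟩
  have hK1 : (K : ℝ) ≤ y := by rw [hK]; exact Nat.floor_le hy0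
  have hK2 : y / 2 ≤ K := by
    have h1 : y < K + 1 := by rw [hK]; exact Nat.lt_floor_add_one y
    have h2 : (1 : ℝ) ≤ K := by
      rw [hK]
      exact_mod_cast (Nat.le_floor (by simpa using hn) : 1 ≤ ⌊y⌋₊)
    linarith
  have hcube : ((n : ℝ) ^ (1 / 3 : ℝ)) ^ 3 = n := by
    rw [← Real.rpow_natCast, ← Real.rpow_mul hn0]; norm_num
  have hgrid : (grid (13 * H * K ^ 2)).card ≤ n := by
    rw [card_grid]
    have hKpos : 1 ≤ K := by
      rw [hK]; exact Nat.le_floor (by simpa using hn)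
    have h1 : 2 * (13 * H * K ^ 2) + 1 ≤ 27 * H * K ^ 2 := by
      have : 1 ≤ H * K ^ 2 := Nat.mul_pos hH (pow_pos hKpos 2)
      nlinarith
    have h2 : ((27 * H * K ^ 2 : ℕ) : ℝ) ≤ (n : ℝ) ^ (1 / 3 : ℝ) := by
      rw [← hy3]
      push_cast
      have : (K : ℝ) ^ 2 ≤ y ^ 2 := pow_le_pow_left₀ (Nat.cast_nonneg _) hK1 2
      exact mul_le_mul_of_nonneg_left this hH0.le
    have h3 : (((2 * (13 * H * K ^ 2) + 1) ^ 3 : ℕ) : ℝ) ≤ n := by
      have h4 : ((2 * (13 * H * K ^ 2) + 1 : ℕ) : ℝ) ≤ (n : ℝ) ^ (1 / 3 : ℝ) :=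
        (Nat.cast_le.2 h1).trans h2
      rw [Nat.cast_pow]
      calc ((2 * (13 * H * K ^ 2) + 1 : ℕ) : ℝ) ^ 3 ≤ ((n : ℝ) ^ (1 / 3 : ℝ)) ^ 3 :=
            pow_le_pow_left₀ (Nat.cast_nonneg _) h4 3
        _ = n := hcube
    exact_mod_cast h3
  obtain ⟨P, hP, hPc⟩ := Infinite.exists_superset_card_eq (grid (13 * H * K ^ 2)) n hgrid
  refine ⟨P, hPc, ?_⟩
  have hm := many hT hH hz K hP
  have hm' : (K : ℝ) ^ 10 ≤ 256 * num P T := by exact_mod_cast hm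
  have h5 : (n : ℝ) ^ (5 / 3 : ℝ) = (27 * H) ^ 5 * y ^ 10 := by
    have : (n : ℝ) ^ (5 / 3 : ℝ) = ((n : ℝ) ^ (1 / 3 : ℝ)) ^ 5 := by
      rw [← Real.rpow_natCast, ← Real.rpow_mul hn0]; norm_num
    rw [this, ← hy3]; ring
  have h6 : (y / 2) ^ 10 ≤ (K : ℝ) ^ 10 := pow_le_pow_left₀ (by linarith) hK2 10
  rw [h5]
  have h7 : 1 / (256 * (1024 * (27 * (H : ℝ)) ^ 5)) * ((27 * H) ^ 5 * y ^ 10) =
      (y / 2) ^ 10 / 256 := by
    field_simp
    norm_num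
  rw [h7]
  linarith

end Pool.Agent.Q291.TET
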